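import Pool.Agent.Q229.MW.Base

/-!
# MW-M3: the length of the code of the canonical form of a `d`-CNF formula

The canonical form of a `d`-CNF formula with `n` variables is a list of different lists of at most
`d` literals from `range n × Bool`; we count them.
-/

set_option autoImplicit false

namespace Pool.Agent.Q184.MW

open Pool.Agent.NPC Pool.Agent.Q229.MW

/-- the lists of at most `d` literals in the variables `0, …, n - 1` -/
def short (n : ℕ) : ℕ → Finset (List (ℕ × Bool))
  | 0 => {[]}
  | d + 1 => {[]} ∪ ((Finset.range n ×ˢ (Finset.univ : Finset Bool)) ×ˢ short n d).image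
      fun p => p.1 :: p.2

theorem mem_short (n : ℕ) : ∀ (d : ℕ) (l : List (ℕ × Bool)), l.length ≤ d → (∀ a ∈ l, a.1 < n) →
    l ∈ short n d := by
  intro d
  induction d with
  | zero =>
    intro l hl _
    have : l = [] := List.length_eq_zero_iff.mp (by omega)
    subst this
    simp [short]
  | succ d ih =>
    intro l hl ha
    cases l with
    | nil => simp [short]
    | cons a l =>
      simp only [short, Finset.mem_union, Finset.mem_image]
      right
      refine ⟨(a, l), ?_, rfl⟩
      simp only [Finset.mem_product, Finset.mem_range, Finset.mem_univ, and_true]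
      refine ⟨ha a (by simp), ih l (by simpa using hl) fun b hb => ha b (by simp [hb])⟩

theorem card_short (n : ℕ) : ∀ d : ℕ, (short n d).card ≤ (2 * n + 1) ^ d := by
  intro d
  induction d with
  | zero => simp [short]
  | succ d ih =>
    have h1 : (short n (d + 1)).card ≤ 1 + (2 * n) * (short n d).card := by
      rw [show short n (d + 1) = {[]} ∪ ((Finset.range n ×ˢ (Finset.univ : Finset Bool)) ×ˢ
        short n d).image fun p => p.1 :: p.2 from rfl]
      refine (Finset.card_union_le _ _).trans ?_
      refine add_le_add (by simp) (Finset.card_image_le.trans ?_)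
      rw [Finset.card_product, Finset.card_product, Finset.card_range, Finset.card_univ,
        Fintype.card_bool, mul_comm n 2]
    calc (short n (d + 1)).card ≤ 1 + (2 * n) * (short n d).card := h1
      _ ≤ 1 + (2 * n) * (2 * n + 1) ^ d := by gcongr
      _ ≤ (2 * n + 1) ^ d + (2 * n) * (2 * n + 1) ^ d := by
        gcongr
        exact Nat.one_le_pow _ _ (by omega)
      _ = (2 * n + 1) ^ (d + 1) := by ring

theorem numVars_eq (φ : CNF) : numVars φ = (varList φ).length := by
  unfold numVars varList
  exact List.card_toFinset _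

theorem canon_nodup (φ : CNF) : (canon φ).Nodup := List.nodup_dedup _

theorem mem_canon {d : ℕ} {φ : CNF} (hd : Width d φ) {D : List (ℕ × Bool)} (hD : D ∈ canon φ) :
    D.length ≤ d ∧ ∀ a ∈ D, a.1 < numVars φ := by
  unfold canon at hD
  rw [List.mem_dedup, List.mem_map] at hD
  obtain ⟨C, hC, rfl⟩ := hD
  refine ⟨by simpa using hd C hC, ?_⟩
  intro a ha
  rw [List.mem_map] at ha
  obtain ⟨l, hl, rfl⟩ := ha
  show (varList φ).idxOf l.1 < numVars φ
  rw [numVars_eq]
  apply List.idxOf_lt_length_of_mem
  unfold varList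
  rw [List.mem_dedup, List.mem_map]
  exact ⟨l, List.mem_flatten.mpr ⟨C, hC, hl⟩, rfl⟩

theorem length_canon {d : ℕ} {φ : CNF} (hd : Width d φ) :
    (canon φ).length ≤ (2 * numVars φ + 1) ^ d := by
  refine le_trans ?_ (card_short (numVars φ) d)
  rw [← List.toFinset_card_of_nodup (canon_nodup φ)]
  apply Finset.card_le_card
  intro D hD
  rw [List.mem_toFinset] at hD
  have h := mem_canon hd hD
  exact mem_short _ _ _ h.1 h.2

theorem sz_clause {d n : ℕ} {D : List (ℕ × Bool)} (hl : D.length ≤ d) (ha : ∀ a ∈ D, a.1 < n) :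
    sz D ≤ d * (4 * n + 6) + 1 := by
  refine (sz_le_length_mul D (4 * n + 5) ?_).trans ?_
  · rintro ⟨i, b⟩ hi
    have h1 : i < n := ha _ hi
    have h2 := sz_nat_le i
    have h3 := sz_bool_le b
    have h4 : i.size ≤ i := by
      rw [Nat.size_le]
      exact Nat.lt_two_pow_self
    rw [sz_pair]
    omega
  · gcongr

theorem M3 (d : ℕ) : ∃ q : Polynomial ℕ, ∀ φ : CNF, Width d φ →
    sz (canon φ) ≤ q.eval (numVars φ) := by
  refine ⟨(2 * Polynomial.X + 1) ^ d * (Polynomial.C d * (4 * Polynomial.X + 6) + 1 + 1) + 1, ?_⟩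
  intro φ hφ
  have h1 : sz (canon φ) ≤ (canon φ).length * (d * (4 * numVars φ + 6) + 1 + 1) + 1 :=
    sz_le_length_mul _ _ fun D hD => sz_clause (mem_canon hφ hD).1 (mem_canon hφ hD).2
  refine h1.trans ?_
  have h2 : Polynomial.eval (numVars φ)
      ((2 * Polynomial.X + 1) ^ d * (Polynomial.C d * (4 * Polynomial.X + 6) + 1 + 1) + 1 :
        Polynomial ℕ) = (2 * numVars φ + 1) ^ d * (d * (4 * numVars φ + 6) + 1 + 1) + 1 := by
    simp
  rw [h2]
  gcongr
  exact length_canon hφ

end Pool.Agent.Q184.MW
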