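import Pool.Agent.Q229.MW.Base

/-!
# MW-M5: polylogarithmic is at most a constant times the square root
-/

set_option autoImplicit false

namespace Pool.Agent.Q184.MW

theorem eval_le (q : Polynomial ℕ) (n : ℕ) : q.eval n ≤ q.eval 1 * (n + 1) ^ (q.natDegree + 1) := by
  rw [Polynomial.eval_eq_sum_range, Polynomial.eval_eq_sum_range, Finset.sum_mul]
  apply Finset.sum_le_sum
  intro i hi
  rw [Finset.mem_range] at hi
  rw [one_pow, mul_one]
  apply Nat.mul_le_mul_left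
  calc n ^ i ≤ (n + 1) ^ i := Nat.pow_le_pow_left (by omega) i
    _ ≤ (n + 1) ^ (q.natDegree + 1) := Nat.pow_le_pow_right (by omega) (by omega)

theorem M5 (q : Polynomial ℕ) (g A e : ℕ) : ∃ H : ℕ, ∀ (L n : ℕ), 1 ≤ L →
    (n : ℝ) ≤ g * Real.logb 2 ((A : ℝ) * (L : ℝ) ^ e) →
      ((q.eval n : ℕ) : ℝ) ≤ H * (L : ℝ) ^ (1 / 2 : ℝ) := by
  set b : ℕ := q.natDegree + 1 with hb
  have hb0 : (0 : ℝ) < b := by
    rw [hb]
    positivity
  set ε : ℝ := 1 / (2 * b) with hε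
  have hε0 : 0 < ε := by positivity
  have hl2 : 0 < Real.log 2 := Real.log_pos (by norm_num)
  set K : ℝ := g * (Real.logb 2 (A + 1) + e * (1 / (ε * Real.log 2))) + 1 with hK
  have hA1 : 0 ≤ Real.logb 2 ((A : ℝ) + 1) := by
    apply Real.logb_nonneg (by norm_num)
    have : (0 : ℝ) ≤ A := by positivity
    linarith
  have hK0 : 0 ≤ K := by positivity
  refine ⟨⌈((q.eval 1 : ℕ) : ℝ) * K ^ b⌉₊, ?_⟩
  intro L n hL hn
  have hL1 : (1 : ℝ) ≤ L := by exact_mod_cast hL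
  have hL0 : (0 : ℝ) < L := by linarith
  have hLe : 1 ≤ (L : ℝ) ^ ε := Real.one_le_rpow hL1 hε0.le
  -- the logarithm
  have h1 : Real.logb 2 ((A : ℝ) * (L : ℝ) ^ e) ≤
      Real.logb 2 (A + 1) + e * (1 / (ε * Real.log 2)) * (L : ℝ) ^ ε := by
    have h2 : Real.logb 2 ((A : ℝ) * (L : ℝ) ^ e) ≤ Real.logb 2 (((A : ℝ) + 1) * (L : ℝ) ^ e) := by
      rcases Nat.eq_zero_or_pos A with h | h
      · subst h
        simp only [Nat.cast_zero, zero_mul, Real.logb_zero, zero_add, one_mul]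
        exact Real.logb_nonneg (by norm_num) (one_le_pow₀ hL1)
      · apply Real.logb_le_logb_of_le (by norm_num)
        · have : (0 : ℝ) < A := by exact_mod_cast h
          positivity
        · apply mul_le_mul_of_nonneg_right _ (by positivity)
          linarith
    refine h2.trans ?_
    have h3 : ((A : ℝ) + 1) ≠ 0 := by positivity
    have h4 : ((L : ℝ) ^ e) ≠ 0 := by positivity
    rw [Real.logb_mul h3 h4, Real.logb_pow]
    have h5 : Real.logb 2 (L : ℝ) ≤ 1 / (ε * Real.log 2) * (L : ℝ) ^ ε := by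
      have h6 : Real.log (L : ℝ) ≤ (L : ℝ) ^ ε / ε := Real.log_le_rpow_div hL0.le hε0
      unfold Real.logb
      calc Real.log (L : ℝ) / Real.log 2 ≤ ((L : ℝ) ^ ε / ε) / Real.log 2 := by gcongr
        _ = 1 / (ε * Real.log 2) * (L : ℝ) ^ ε := by
          field_simp
    have h7 := mul_le_mul_of_nonneg_left h5 (Nat.cast_nonneg (α := ℝ) e)
    linarith
  have h8 : (n : ℝ) + 1 ≤ K * (L : ℝ) ^ ε := by
    have h9 : (n : ℝ) ≤ g * (Real.logb 2 (A + 1) + e * (1 / (ε * Real.log 2)) * (L : ℝ) ^ ε) :=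
      hn.trans (mul_le_mul_of_nonneg_left h1 (by positivity))
    have h10 : Real.logb 2 ((A : ℝ) + 1) ≤ Real.logb 2 ((A : ℝ) + 1) * (L : ℝ) ^ ε := by
      nlinarith
    have h11 : (g : ℝ) * (Real.logb 2 (A + 1) + e * (1 / (ε * Real.log 2)) * (L : ℝ) ^ ε) ≤
        g * (Real.logb 2 (A + 1) * (L : ℝ) ^ ε + e * (1 / (ε * Real.log 2)) * (L : ℝ) ^ ε) := by
      apply mul_le_mul_of_nonneg_left _ (by positivity)
      linarith
    rw [hK]
    nlinarith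
  have h12 : ((q.eval n : ℕ) : ℝ) ≤ ((q.eval 1 : ℕ) : ℝ) * ((n : ℝ) + 1) ^ b := by
    exact_mod_cast eval_le q n
  have h13 : ((n : ℝ) + 1) ^ b ≤ K ^ b * (L : ℝ) ^ (1 / 2 : ℝ) := by
    calc ((n : ℝ) + 1) ^ b ≤ (K * (L : ℝ) ^ ε) ^ b := by gcongr
      _ = K ^ b * (L : ℝ) ^ (1 / 2 : ℝ) := by
        rw [mul_pow, ← Real.rpow_natCast ((L : ℝ) ^ ε) b, ← Real.rpow_mul hL0.le]
        congr 2
        rw [hε]
        field_simp
  calc ((q.eval n : ℕ) : ℝ) ≤ ((q.eval 1 : ℕ) : ℝ) * ((n : ℝ) + 1) ^ b := h12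
    _ ≤ ((q.eval 1 : ℕ) : ℝ) * (K ^ b * (L : ℝ) ^ (1 / 2 : ℝ)) := by gcongr
    _ = ((q.eval 1 : ℕ) : ℝ) * K ^ b * (L : ℝ) ^ (1 / 2 : ℝ) := by ring
    _ ≤ (⌈((q.eval 1 : ℕ) : ℝ) * K ^ b⌉₊ : ℝ) * (L : ℝ) ^ (1 / 2 : ℝ) := by
      apply mul_le_mul_of_nonneg_right (Nat.le_ceil _) (by positivity)

end Pool.Agent.Q184.MW
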